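import Pool.Agent.BED.Stmts

/-!
# Squad BED, row JZE: the first zero of `J_0`
-/

set_option autoImplicit false

namespace Pool.Agent.BED.H15

open Set Filter Topology

theorem bj_sum (x : ℝ) : ∑ k ∈ Finset.range 8, bj k * x ^ (2 * k) =
    1 - x ^ 2 / 4 + x ^ 4 / 64 - x ^ 6 / 2304 + x ^ 8 / 147456 - x ^ 10 / 14745600 +
      x ^ 12 / 2123366400 - x ^ 14 / 416179814400 := by
  simp only [Finset.sum_range_succ, Finset.sum_range_zero, bj, Nat.factorial]
  push_cast
  ring

theorem bj_8 : |bj 8| = 1 / 106542032486400 := by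
  simp only [bj, Nat.factorial]
  push_cast
  norm_num

theorem jze (h1 : JtaStmt) (h2 : JdeStmt) (h3 : JlbStmt) : JzeStmt := by
  obtain ⟨d1, d2, ode, -, -, -⟩ := h2
  have cj : Continuous j0 := continuous_iff_continuousAt.2 fun x => (d1 x).continuousAt
  -- the values
  have va : 0 < j0 (2404825 / 1000000) := by
    have h := h1.2 (2404825 / 1000000) 8 (by norm_num)
    rw [bj_sum, bj_8] at h
    have h' := (abs_le.1 h).1
    norm_num at h'
    norm_num
    linarith
  have vb : j0 (2404826 / 1000000) < 0 := by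
    have h := h1.2 (2404826 / 1000000) 8 (by norm_num)
    rw [bj_sum, bj_8] at h
    have h' := (abs_le.1 h).2
    norm_num at h'
    norm_num
    linarith
  obtain ⟨x0, ⟨ha, hb⟩, hx0⟩ := intermediate_value_Icc'
    (show (2404825 / 1000000 : ℝ) ≤ 2404826 / 1000000 by norm_num) cj.continuousOn ⟨vb.le, va.le⟩
  have ha' : 2404825 / 1000000 < x0 := by
    refine lt_of_le_of_ne ha fun h => ?_
    rw [h, hx0] at va
    exact lt_irrefl _ va
  have hb' : x0 < 2404826 / 1000000 := by
    refine lt_of_le_of_ne hb fun h => ?_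
    rw [← h, hx0] at vb
    exact lt_irrefl _ vb
  -- the function `F`
  have dF : ∀ x : ℝ, HasDerivAt (fun x : ℝ => x * deriv j0 x + x ^ 2 / 2 - x ^ 4 / 16)
      (-(x * j0 x) + x - x ^ 3 / 4) x := by
    intro x
    have e1 : HasDerivAt (fun x : ℝ => x * deriv j0 x)
        (1 * deriv j0 x + x * deriv (deriv j0) x) x := (hasDerivAt_id x).mul (d2 x)
    have e2 : HasDerivAt (fun x : ℝ => x ^ 2 / 2) (((2 : ℕ) : ℝ) * x ^ (2 - 1) / 2) x :=
      (hasDerivAt_pow 2 x).div_const 2
    have e3 : HasDerivAt (fun x : ℝ => x ^ 4 / 16) (((4 : ℕ) : ℝ) * x ^ (4 - 1) / 16) x :=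
      (hasDerivAt_pow 4 x).div_const 16
    have e4 := (e1.add e2).sub e3
    refine e4.congr_deriv ?_
    have := ode x
    norm_num
    linear_combination this
  have hF : AntitoneOn (fun x : ℝ => x * deriv j0 x + x ^ 2 / 2 - x ^ 4 / 16) (Icc 0 3) := by
    refine antitoneOn_of_deriv_nonpos (convex_Icc 0 3)
      (fun x _ => (dF x).continuousAt.continuousWithinAt)
      (fun x _ => (dF x).differentiableAt.differentiableWithinAt) fun x hx => ?_
    rw [interior_Icc] at hx
    rw [(dF x).deriv]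
    have h4 := (h3 x hx.1.le hx.2.le).1
    have h5 : x * (1 - x ^ 2 / 4) ≤ x * j0 x := mul_le_mul_of_nonneg_left h4 hx.1.le
    nlinarith
  have neg : ∀ x : ℝ, 0 < x → x ≤ 5 / 2 → deriv j0 x < 0 := by
    intro x hx hx'
    have h4 := hF (left_mem_Icc.2 (by norm_num)) (⟨hx.le, by linarith⟩ : x ∈ Icc (0 : ℝ) 3) hx.le
    norm_num at h4
    have h5 : x ^ 2 ≤ 25 / 4 := by nlinarith
    have h6 : x * deriv j0 x < 0 := by
      have h7 : 0 < x ^ 2 := by positivity
      nlinarith
    by_contra hcon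
    push Not at hcon
    nlinarith [mul_nonneg hx.le hcon]
  have anti : StrictAntiOn j0 (Icc 0 (5 / 2)) := by
    refine strictAntiOn_of_deriv_neg (convex_Icc _ _) cj.continuousOn fun x hx => ?_
    rw [interior_Icc] at hx
    exact neg x hx.1 hx.2.le
  have hx05 : x0 ≤ 5 / 2 := by linarith
  have hx00 : 0 < x0 := by linarith
  refine ⟨x0, ha', hb', hx0, (neg x0 hx00 hx05).ne, fun x hx hx' => ?_⟩
  rw [← hx0]
  exact anti.antitoneOn ⟨hx, hx'.trans hx05⟩ ⟨hx00.le, hx05⟩ hx'

end Pool.Agent.BED.H15
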