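import Pool.Agent.Helper54_BED.Stmt

/-!
# Band edge delocalization, module MINMAX
-/

set_option autoImplicit false

open scoped BigOperators

noncomputable section

namespace Pool.Agent.BED.H15

open Matrix Pool.Agent.BED

theorem inner_toLp {n : Type} [Fintype n] (f g : n → ℝ) :
    inner ℝ (WithLp.toLp 2 f) (WithLp.toLp 2 g) = ∑ x, f x * g x := by
  rw [EuclideanSpace.inner_eq_star_dotProduct]
  simp only [dotProduct, star_trivial]
  exact Finset.sum_congr rfl fun x _ => mul_comm _ _

theorem spectral {n : Type} [Fintype n] [DecidableEq n] (H : Matrix n n ℝ) (hH : H.IsHermitian)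
    (f : n → ℝ) : ∃ c : n → ℝ, (∀ i, c i = ∑ x, (hH.eigenvectorBasis i).ofLp x * f x) ∧
      ∑ x, f x ^ 2 = ∑ i, c i ^ 2 ∧
      ∑ x, f x * (H *ᵥ f) x = ∑ i, hH.eigenvalues i * c i ^ 2 := by
  set b := hH.eigenvectorBasis with hb
  have hbi : ∀ i, b i = WithLp.toLp 2 (b i).ofLp := fun i => rfl
  refine ⟨fun i => ∑ x, (b i).ofLp x * f x, fun i => rfl, ?_, ?_⟩
  · have h := b.sum_inner_mul_inner (WithLp.toLp 2 f) (WithLp.toLp 2 f)
    rw [inner_toLp] at h
    have e : ∑ x, f x ^ 2 = ∑ x, f x * f x := Finset.sum_congr rfl fun x _ => sq _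
    rw [e, ← h]
    refine Finset.sum_congr rfl fun i _ => ?_
    rw [real_inner_comm, hbi i, inner_toLp, sq]
  · have h := b.sum_inner_mul_inner (WithLp.toLp 2 f) (WithLp.toLp 2 (H *ᵥ f))
    rw [inner_toLp] at h
    rw [← h]
    refine Finset.sum_congr rfl fun i _ => ?_
    rw [real_inner_comm, hbi i, inner_toLp, inner_toLp]
    have h1 : ∑ x, (b i).ofLp x * (H *ᵥ f) x = hH.eigenvalues i * ∑ x, (b i).ofLp x * f x := by
      have h2 := sum_mul_mulVec_comm (A := H) (fun x y => by
        have := congrFun (congrFun hH y) x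
        simpa [Matrix.conjTranspose_apply] using this) (b i).ofLp f
      rw [h2, hH.mulVec_eigenvectorBasis i, Finset.mul_sum]
      refine Finset.sum_congr rfl fun x _ => ?_
      rw [Pi.smul_apply, smul_eq_mul]
      ring
    rw [h1]
    ring

/-- MINMAX -/
theorem minmax : MinmaxStmt := by
  intro n _ _ H hH e k f hf0 hdis horth hlow
  by_contra hcon
  push Not at hcon
  set S := Finset.univ.filter fun i => e ≤ hH.eigenvalues i with hS
  -- a combination orthogonal to the eigenvectors with large eigenvalues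
  let Φ : (Fin k → ℝ) →ₗ[ℝ] (S → ℝ) :=
    { toFun := fun c i => ∑ x, (hH.eigenvectorBasis i).ofLp x * ∑ j, c j * f j x
      map_add' := by
        intro c c'
        funext i
        simp only [Pi.add_apply, add_mul, Finset.sum_add_distrib, mul_add]
      map_smul' := by
        intro a c
        funext i
        simp only [Pi.smul_apply, smul_eq_mul, RingHom.id_apply, Finset.mul_sum]
        refine Finset.sum_congr rfl fun x _ => Finset.sum_congr rfl fun j _ => ?_
        ring }
  obtain ⟨c, hc0, hcne⟩ : ∃ c : Fin k → ℝ, Φ c = 0 ∧ c ≠ 0 := by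
    by_contra h
    push Not at h
    have hinj : Function.Injective Φ := by
      rw [injective_iff_map_eq_zero]
      exact h
    have := LinearMap.finrank_le_finrank_of_injective hinj
    rw [Module.finrank_fin_fun, Module.finrank_fintype_fun_eq_card, Fintype.card_coe] at this
    omega
  set g : n → ℝ := fun x => ∑ j, c j * f j x with hg
  obtain ⟨a, ha1, ha2, ha3⟩ := spectral H hH g
  have haS : ∀ i ∈ S, a i = 0 := by
    intro i hi
    rw [ha1]
    have := congrFun hc0 ⟨i, hi⟩
    exact this
  -- norm and energy of the combination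
  have hgg : ∑ x, g x ^ 2 = ∑ j, c j ^ 2 * ∑ x, f j x ^ 2 := by
    have e1 : ∀ x, g x ^ 2 = ∑ j, c j ^ 2 * f j x ^ 2 := by
      intro x
      rw [hg, sq, Finset.sum_mul_sum]
      refine Finset.sum_congr rfl fun j _ => ?_
      rw [Finset.sum_eq_single j]
      · ring
      · intro j' _ hj
        have := hdis j j' (Ne.symm hj) x
        calc c j * f j x * (c j' * f j' x) = c j * c j' * (f j x * f j' x) := by ring
          _ = 0 := by rw [this, mul_zero]
      · intro h; exact absurd (Finset.mem_univ j) h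
    simp only [e1]
    rw [Finset.sum_comm]
    refine Finset.sum_congr rfl fun j _ => ?_
    rw [Finset.mul_sum]
  have hHg : H *ᵥ g = fun x => ∑ j, c j * (H *ᵥ f j) x := by
    funext x
    simp only [Matrix.mulVec, dotProduct, hg, Finset.mul_sum]
    rw [Finset.sum_comm]
    refine Finset.sum_congr rfl fun j _ => Finset.sum_congr rfl fun y _ => ?_
    ring
  have hgH : ∑ x, g x * (H *ᵥ g) x = ∑ j, c j ^ 2 * ∑ x, f j x * (H *ᵥ f j) x := by
    rw [hHg]
    have e1 : ∑ x, g x * ∑ j', c j' * (H *ᵥ f j') x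
        = ∑ j, ∑ j', c j * c j' * ∑ x, f j x * (H *ᵥ f j') x := by
      calc ∑ x, g x * ∑ j', c j' * (H *ᵥ f j') x
          = ∑ x, ∑ j, ∑ j', c j * c j' * (f j x * (H *ᵥ f j') x) := by
            refine Finset.sum_congr rfl fun x _ => ?_
            rw [hg, Finset.sum_mul_sum]
            refine Finset.sum_congr rfl fun j _ => Finset.sum_congr rfl fun j' _ => ?_
            ring
        _ = ∑ j, ∑ x, ∑ j', c j * c j' * (f j x * (H *ᵥ f j') x) := Finset.sum_comm
        _ = ∑ j, ∑ j', ∑ x, c j * c j' * (f j x * (H *ᵥ f j') x) :=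
            Finset.sum_congr rfl fun j _ => Finset.sum_comm
        _ = ∑ j, ∑ j', c j * c j' * ∑ x, f j x * (H *ᵥ f j') x := by
            simp only [Finset.mul_sum]
    rw [e1]
    refine Finset.sum_congr rfl fun j _ => ?_
    rw [Finset.sum_eq_single j]
    · ring
    · intro j' _ hj
      rw [horth j j' (Ne.symm hj), mul_zero]
    · intro h; exact absurd (Finset.mem_univ j) h
  have hlow2 : e * ∑ x, g x ^ 2 ≤ ∑ x, g x * (H *ᵥ g) x := by
    rw [hgg, hgH, Finset.mul_sum]
    refine Finset.sum_le_sum fun j _ => ?_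
    have := mul_le_mul_of_nonneg_left (hlow j) (sq_nonneg (c j))
    linarith
  have hpos : 0 < ∑ x, g x ^ 2 := by
    rw [hgg]
    obtain ⟨j, hj⟩ := Function.ne_iff.1 hcne
    refine Finset.sum_pos' (fun i _ => mul_nonneg (sq_nonneg _)
      (Finset.sum_nonneg fun x _ => sq_nonneg _)) ⟨j, Finset.mem_univ j, ?_⟩
    obtain ⟨x, hx⟩ := Function.ne_iff.1 (hf0 j)
    have hx' : f j x ≠ 0 := hx
    have hj' : c j ≠ 0 := hj
    refine mul_pos (by positivity) (Finset.sum_pos' (fun y _ => sq_nonneg _)
      ⟨x, Finset.mem_univ x, by positivity⟩)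
  rw [ha2, ha3] at hlow2
  rw [ha2] at hpos
  have hlt : ∑ i, hH.eigenvalues i * a i ^ 2 < e * ∑ i, a i ^ 2 := by
    rw [Finset.mul_sum]
    obtain ⟨i, _, hi⟩ := Finset.exists_ne_zero_of_sum_ne_zero hpos.ne'
    have hai : a i ≠ 0 := by
      intro h
      exact hi (by rw [h]; ring)
    refine Finset.sum_lt_sum (fun j _ => ?_) ⟨i, Finset.mem_univ i, ?_⟩
    · by_cases hj : j ∈ S
      · rw [haS j hj]; simp
      · have : hH.eigenvalues j < e := by
          rw [hS, Finset.mem_filter] at hj
          push Not at hj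
          exact hj (Finset.mem_univ j)
        exact mul_le_mul_of_nonneg_right this.le (sq_nonneg _)
    · have hiS : i ∉ S := fun h => hai (haS i h)
      have : hH.eigenvalues i < e := by
        rw [hS, Finset.mem_filter] at hiS
        push Not at hiS
        exact hiS (Finset.mem_univ i)
      exact mul_lt_mul_of_pos_right this (by positivity)
  linarith

end Pool.Agent.BED.H15
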